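import Mathlib
import Pool.Agent.Hhelper76.FairDiv

/-!
# MP_d51325_lc: few goods, and two blocks of goods

Round robin in the order `0, 1, …, n-1` inside `G`, and round robin in the reverse order inside the complement of `G`:
the result is SD-EF1 with respect to the subjective utilities for every set `G` of goods. If the goods of `G` are the more
valuable ones for `v`, and `v` is constant on `G` or `G` has at most `n` goods, and `v` is constant outside `G`, or there
are at most `n` goods outside `G` and `n` divides the number of goods of `G`, then it is SD-EF1 with respect to `v` too.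
-/

set_option autoImplicit false

namespace Pool.Agent.Results.MP_d51325_lc.FewGoods

open Finset Pool.Agent.Hhelper76.FairDiv

/-- serial picks: in step `i` the best remaining good for `w i` is taken, `f x` is the step of `x` -/
theorem picks {M : Type*} [DecidableEq M] (s : ℕ) : ∀ (w : ℕ → M → ℝ) (S : Finset M), S.card = s →
    ∃ f : M → ℕ, (∀ x ∈ S, f x < s) ∧ (∀ x ∈ S, ∀ y ∈ S, f x = f y → x = y) ∧
      (∀ i < s, ∃ x ∈ S, f x = i) ∧ ∀ y ∈ S, ∀ i < f y, ∃ x ∈ S, f x = i ∧ w i y ≤ w i x := by
  induction s with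
  | zero =>
    intro w S hS
    have h0 : S = ∅ := Finset.card_eq_zero.mp hS
    subst h0
    exact ⟨fun _ => 0, by simp, by simp, by simp, by simp⟩
  | succ s ih =>
    intro w S hS
    have hne : S.Nonempty := Finset.card_pos.mp (by omega)
    obtain ⟨x0, hx0, hmax⟩ := Finset.exists_max_image S (w 0) hne
    obtain ⟨f, h1, h2, h3, h4⟩ := ih (fun i => w (i + 1)) (S.erase x0)
      (by rw [Finset.card_erase_of_mem hx0, hS]; rfl)
    refine ⟨fun x => if x = x0 then 0 else f x + 1, ?_, ?_, ?_, ?_⟩
    · intro x hx
      by_cases h : x = x0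
      · simp [h]
      · simp only [h, if_false]
        have := h1 x (Finset.mem_erase.mpr ⟨h, hx⟩)
        omega
    · intro x hx y hy hxy
      by_cases h : x = x0 <;> by_cases h' : y = x0
      · rw [h, h']
      · simp [h, h'] at hxy
      · simp [h, h'] at hxy
      · simp only [h, h', if_false, Nat.add_right_cancel_iff] at hxy
        exact h2 x (Finset.mem_erase.mpr ⟨h, hx⟩) y (Finset.mem_erase.mpr ⟨h', hy⟩) hxy
    · intro i hi
      rcases i with _ | i
      · exact ⟨x0, hx0, by simp⟩
      · obtain ⟨x, hx, hxi⟩ := h3 i (by omega)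
        obtain ⟨hx', hxS⟩ := Finset.mem_erase.mp hx
        exact ⟨x, hxS, by simp [hx', hxi]⟩
    · intro y hy i hi
      by_cases h : y = x0
      · simp [h] at hi
      · simp only [h, if_false] at hi
        rcases i with _ | i
        · exact ⟨x0, hx0, by simp, hmax y hy⟩
        · obtain ⟨x, hx, hxi, hw⟩ := h4 y (Finset.mem_erase.mpr ⟨h, hy⟩) i (by omega)
          obtain ⟨hx', hxS⟩ := Finset.mem_erase.mp hx
          exact ⟨x, hxS, by simp [hx', hxi], hw⟩

/-- round robin: in step `t` the agent `t % n` takes her best remaining good of `S` -/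
theorem rr {M : Type*} [DecidableEq M] {n : ℕ} (hn : 0 < n) (w : Fin n → M → ℝ) (S : Finset M) :
    ∃ A : M → Fin n,
      (∀ (i j : Fin n) (P : M → Prop) [DecidablePred P], (∀ x y, P y → w i y ≤ w i x → P x) →
        (S.filter fun x => A x = j ∧ P x).card ≤
          (S.filter fun x => A x = i ∧ P x).card + if j < i then 1 else 0) ∧
      (S.card ≤ n → ∀ j, (S.filter fun x => A x = j).card ≤ 1) ∧
      (n ∣ S.card → ∀ i j, (S.filter fun x => A x = j).card ≤ (S.filter fun x => A x = i).card) := by
  classical
  obtain ⟨f, h1, h2, h3, h4⟩ := picks S.card (fun t => w ⟨t % n, Nat.mod_lt _ hn⟩) S rfl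
  let A : M → Fin n := fun x => ⟨f x % n, Nat.mod_lt _ hn⟩
  have hA : ∀ x (j : Fin n), A x = j ↔ f x % n = j.val := by
    intro x j
    simp [A, Fin.ext_iff]
  have hmod : ∀ (k : ℕ) (i : Fin n), (n * k + i.val) % n = i.val := by
    intro k i
    rw [Nat.mul_add_mod, Nat.mod_eq_of_lt i.isLt]
  have hdiv : ∀ (k : ℕ) (i : Fin n), (n * k + i.val) / n = k := by
    intro k i
    rw [Nat.mul_add_div hn, Nat.div_eq_of_lt i.isLt, Nat.add_zero]
  have step : ∀ y ∈ S, ∀ (i : Fin n) (k : ℕ), n * k + i.val < f y →
      ∃ x ∈ S, f x = n * k + i.val ∧ w i y ≤ w i x := by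
    intro y hy i k h
    obtain ⟨x, hx, hxt, hw⟩ := h4 y hy _ h
    refine ⟨x, hx, hxt, ?_⟩
    have e : (⟨(n * k + i.val) % n, Nat.mod_lt _ hn⟩ : Fin n) = i := Fin.ext (hmod k i)
    simpa only [e] using hw
  have hcard : ∀ (j : Fin n) (P : M → Prop) [DecidablePred P],
      ((S.filter fun x => A x = j ∧ P x).image fun x => f x / n).card =
        (S.filter fun x => A x = j ∧ P x).card := by
    intro j P _
    apply Finset.card_image_of_injOn
    intro x hx y hy hxy
    have hx' := Finset.mem_filter.mp (Finset.mem_coe.mp hx)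
    have hy' := Finset.mem_filter.mp (Finset.mem_coe.mp hy)
    apply h2 x hx'.1 y hy'.1
    have e1 := (hA x j).mp hx'.2.1
    have e2 := (hA y j).mp hy'.2.1
    have e3 : f x / n = f y / n := hxy
    rw [← Nat.div_add_mod (f x) n, ← Nat.div_add_mod (f y) n, e1, e2, e3]
  refine ⟨A, ?_, ?_, ?_⟩
  · intro i j P _ hP
    rw [← hcard j P, ← hcard i P]
    by_cases hji : j < i
    · rw [if_pos hji]
      have hsub : ((S.filter fun x => A x = j ∧ P x).image fun x => f x / n) ⊆
          insert 0 (((S.filter fun x => A x = i ∧ P x).image fun x => f x / n).image Nat.succ) := by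
        intro k hk
        obtain ⟨y, hy, hyk⟩ := Finset.mem_image.mp hk
        obtain ⟨hyS, hyj, hyP⟩ := Finset.mem_filter.mp hy
        rcases Nat.eq_zero_or_pos k with h0 | hpos
        · exact Finset.mem_insert.mpr (Or.inl h0)
        · apply Finset.mem_insert_of_mem
          have e1 : n * (f y / n) + f y % n = f y := Nat.div_add_mod (f y) n
          have e2 : f y / n = (k - 1) + 1 := by omega
          rw [e2, Nat.mul_add, Nat.mul_one] at e1
          have hi := i.isLt
          obtain ⟨x, hx, hxt, hw⟩ := step y hyS i (k - 1) (by omega)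
          refine Finset.mem_image.mpr ⟨k - 1, Finset.mem_image.mpr ⟨x, Finset.mem_filter.mpr ⟨hx, ?_, hP x y hyP hw⟩, ?_⟩, by omega⟩
          · rw [hA, hxt, hmod]
          · show f x / n = k - 1
            rw [hxt, hdiv]
      calc _ ≤ _ := Finset.card_le_card hsub
        _ ≤ _ := Finset.card_insert_le _ _
        _ ≤ _ := Nat.add_le_add_right Finset.card_image_le 1
    · rw [if_neg hji, Nat.add_zero]
      apply Finset.card_le_card
      intro k hk
      obtain ⟨y, hy, hyk⟩ := Finset.mem_image.mp hk
      obtain ⟨hyS, hyj, hyP⟩ := Finset.mem_filter.mp hy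
      have e1 : n * (f y / n) + f y % n = f y := Nat.div_add_mod (f y) n
      have e3 := (hA y j).mp hyj
      have hle : i.val ≤ j.val := by
        have := not_lt.mp hji
        exact this
      rcases Nat.eq_or_lt_of_le hle with he | hlt
      · have hij : i = j := Fin.ext he
        rw [hij]
        exact hk
      · obtain ⟨x, hx, hxt, hw⟩ := step y hyS i (f y / n) (by omega)
        refine Finset.mem_image.mpr ⟨x, Finset.mem_filter.mpr ⟨hx, ?_, hP x y hyP hw⟩, ?_⟩
        · rw [hA, hxt, hmod]
        · show f x / n = k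
          rw [hxt, hdiv]
          exact hyk
  · intro hS j
    rw [Finset.card_le_one]
    intro x hx y hy
    obtain ⟨hxS, hxj⟩ := Finset.mem_filter.mp hx
    obtain ⟨hyS, hyj⟩ := Finset.mem_filter.mp hy
    apply h2 x hxS y hyS
    have l1 := h1 x hxS
    have l2 := h1 y hyS
    rw [hA, Nat.mod_eq_of_lt (by omega)] at hxj hyj
    rw [hxj, hyj]
  · rintro ⟨q, hq⟩ i j
    have hc := fun j => hcard j (fun _ => True)
    simp only [and_true] at hc
    rw [← hc j, ← hc i]
    apply Finset.card_le_card
    intro k hk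
    obtain ⟨y, hy, hyk⟩ := Finset.mem_image.mp hk
    obtain ⟨hyS, hyj⟩ := Finset.mem_filter.mp hy
    have e1 : n * (f y / n) + f y % n = f y := Nat.div_add_mod (f y) n
    have hyk' : f y / n = k := hyk
    have hkq : k < q := by
      by_contra hcon
      have h5 : n * q ≤ n * k := Nat.mul_le_mul_left n (not_lt.mp hcon)
      have h6 := h1 y hyS
      rw [hyk'] at e1
      omega
    have h7 : n * (k + 1) ≤ n * q := Nat.mul_le_mul_left n hkq
    rw [Nat.mul_add, Nat.mul_one] at h7
    have hi := i.isLt
    obtain ⟨x, hx, hxt⟩ := h3 (n * k + i.val) (by omega)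
    refine Finset.mem_image.mpr ⟨x, Finset.mem_filter.mpr ⟨hx, ?_⟩, ?_⟩
    · rw [hA, hxt, hmod]
    · show f x / n = k
      rw [hxt, hdiv]

/-- domination of counts gives domination of values -/
theorem dom {M : Type*} [DecidableEq M] (v : M → ℝ) (hv : ∀ g, 0 ≤ v g) (s : ℕ) :
    ∀ X Y : Finset M, Y.card = s →
    (∀ c : ℝ, (Y.filter fun x => c ≤ v x).card ≤ (X.filter fun x => c ≤ v x).card) →
    value v Y ≤ value v X := by
  induction s with
  | zero =>
    intro X Y hY _
    rw [Finset.card_eq_zero.mp hY]
    have : value v (∅ : Finset M) = 0 := by simp [value]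
    rw [this]
    exact Finset.sum_nonneg fun g _ => hv g
  | succ s ih =>
    intro X Y hY h
    have hne : Y.Nonempty := Finset.card_pos.mp (by omega)
    obtain ⟨y, hy, hymax⟩ := Finset.exists_max_image Y v hne
    have hX : X.Nonempty := by
      have h1 := h (v y)
      have h2 : 0 < (Y.filter fun x => v y ≤ v x).card :=
        Finset.card_pos.mpr ⟨y, Finset.mem_filter.mpr ⟨hy, le_rfl⟩⟩
      obtain ⟨x, hx⟩ := Finset.card_pos.mp (lt_of_lt_of_le h2 h1)
      exact ⟨x, (Finset.mem_filter.mp hx).1⟩
    obtain ⟨x, hx, hxmax⟩ := Finset.exists_max_image X v hX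
    have hyx : v y ≤ v x := by
      have h1 := h (v y)
      have h2 : 0 < (Y.filter fun x => v y ≤ v x).card :=
        Finset.card_pos.mpr ⟨y, Finset.mem_filter.mpr ⟨hy, le_rfl⟩⟩
      obtain ⟨x', hx'⟩ := Finset.card_pos.mp (lt_of_lt_of_le h2 h1)
      obtain ⟨hx1, hx2⟩ := Finset.mem_filter.mp hx'
      exact hx2.trans (hxmax x' hx1)
    have hrec : value v (Y.erase y) ≤ value v (X.erase x) := by
      apply ih
      · rw [Finset.card_erase_of_mem hy, hY]; rfl
      · intro c
        rw [Finset.filter_erase, Finset.filter_erase]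
        by_cases hc : c ≤ v y
        · rw [Finset.card_erase_of_mem (Finset.mem_filter.mpr ⟨hy, hc⟩),
            Finset.card_erase_of_mem (Finset.mem_filter.mpr ⟨hx, hc.trans hyx⟩)]
          exact Nat.sub_le_sub_right (h c) 1
        · have : Y.filter (fun x => c ≤ v x) = ∅ := by
            rw [Finset.filter_eq_empty_iff]
            intro z hz hcz
            exact hc (hcz.trans (hymax z hz))
          rw [this]
          simp
    have e1 : value v Y = v y + value v (Y.erase y) := (Finset.add_sum_erase Y v hy).symm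
    have e2 : value v X = v x + value v (X.erase x) := (Finset.add_sum_erase X v hx).symm
    rw [e1, e2]
    exact add_le_add hyx hrec

variable {M : Type*} [Fintype M] [DecidableEq M]

theorem ef1_of_sdef1 {n : ℕ} {A : M → Fin n} (v : M → ℝ) (hv : ∀ g, 0 ≤ v g)
    (h : SDEF1 (fun _ => v) A) : EF1 (fun _ => v) A := by
  intro i j
  by_cases hj : bundle A j = ∅
  · exact Or.inl hj
  right
  obtain ⟨y, hy, hymax⟩ := Finset.exists_max_image (bundle A j) v (Finset.nonempty_iff_ne_empty.mpr hj)
  refine ⟨y, hy, dom v hv _ _ _ rfl ?_⟩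
  intro c
  rw [Finset.filter_erase]
  by_cases hne : ((bundle A j).filter fun x => c ≤ v x) = ∅
  · rw [hne]
    simp
  · -- the threshold `c` may be replaced by the least value `≥ c` in the bundle of `j`
    obtain ⟨g, hg, hgmin⟩ := Finset.exists_min_image _ v (Finset.nonempty_iff_ne_empty.mpr hne)
    have hcg : c ≤ v g := (Finset.mem_filter.mp hg).2
    have hyc : c ≤ v y := hcg.trans (hymax g (Finset.mem_filter.mp hg).1)
    rw [Finset.card_erase_of_mem (Finset.mem_filter.mpr ⟨hy, hyc⟩)]
    have h1 := h i j g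
    have h2 : (bundle A j).filter (fun x => c ≤ v x) = (bundle A j).filter (fun x => v g ≤ v x) := by
      ext x
      rw [Finset.mem_filter, Finset.mem_filter]
      constructor
      · rintro ⟨hx, hxc⟩
        exact ⟨hx, hgmin x (Finset.mem_filter.mpr ⟨hx, hxc⟩)⟩
      · rintro ⟨hx, hxg⟩
        exact ⟨hx, hcg.trans hxg⟩
    have h3 : ((bundle A i).filter (fun x => v g ≤ v x)).card ≤
        ((bundle A i).filter (fun x => c ≤ v x)).card := by
      apply Finset.card_le_card
      intro x hx
      obtain ⟨hx1, hx2⟩ := Finset.mem_filter.mp hx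
      exact Finset.mem_filter.mpr ⟨hx1, hcg.trans hx2⟩
    rw [h2]
    simp only at h1
    omega

theorem split {n : ℕ} (A : M → Fin n) (G : Finset M) (j : Fin n) (P : M → Prop) [DecidablePred P] :
    ((bundle A j).filter P).card = (G.filter fun x => A x = j ∧ P x).card +
      (Gᶜ.filter fun x => A x = j ∧ P x).card := by
  rw [← Finset.card_union_of_disjoint]
  · congr 1
    ext x
    simp only [bundle, Finset.mem_filter, Finset.mem_univ, true_and, Finset.mem_union,
      Finset.mem_compl]
    by_cases hx : x ∈ G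
    · simp [hx]
    · simp [hx]
  · rw [Finset.disjoint_left]
    intro x hx hx'
    exact (Finset.mem_compl.mp (Finset.mem_filter.mp hx').1) (Finset.mem_filter.mp hx).1

theorem hone {n : ℕ} (i j : Fin n) : (if j < i then 1 else 0) + (if i < j then 1 else 0) ≤ (1 : ℕ) := by
  by_cases h : j < i
  · simp [h, not_lt.mpr h.le]
  · simp only [h, if_false, zero_add]
    split_ifs <;> omega

/-- round robin inside `G`, round robin in the reverse order outside `G` -/
theorem blocks {n : ℕ} (hn : 0 < n) (u : Fin n → M → ℝ) (G : Finset M) :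
    ∃ A : M → Fin n, SDEF1 u A ∧
      (∀ i j, (G.filter fun x => A x = j).card ≤
        (G.filter fun x => A x = i).card + if j < i then 1 else 0) ∧
      (∀ i j, (Gᶜ.filter fun x => A x = j).card ≤
        (Gᶜ.filter fun x => A x = i).card + if i < j then 1 else 0) ∧
      (G.card ≤ n → ∀ j, (G.filter fun x => A x = j).card ≤ 1) ∧
      (n ∣ G.card → ∀ i j, (G.filter fun x => A x = j).card ≤ (G.filter fun x => A x = i).card) ∧
      (Gᶜ.card ≤ n → ∀ j, (Gᶜ.filter fun x => A x = j).card ≤ 1) := by
  classical
  obtain ⟨A1, p1, p2, p3⟩ := rr hn u G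
  obtain ⟨A0, q1, q2, -⟩ := rr hn (fun i => u i.rev) Gᶜ
  let A : M → Fin n := fun x => if x ∈ G then A1 x else (A0 x).rev
  have t1 : ∀ (j : Fin n) (P : M → Prop) [DecidablePred P],
      (G.filter fun x => A x = j ∧ P x) = G.filter fun x => A1 x = j ∧ P x := by
    intro j P _
    apply Finset.filter_congr
    intro x hx
    simp [A, hx]
  have t0 : ∀ (j : Fin n) (P : M → Prop) [DecidablePred P],
      (Gᶜ.filter fun x => A x = j ∧ P x) = Gᶜ.filter fun x => A0 x = j.rev ∧ P x := by
    intro j P _
    apply Finset.filter_congr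
    intro x hx
    have hx' := Finset.mem_compl.mp hx
    simp only [A, hx', if_false]
    constructor
    · rintro ⟨h, hP⟩
      exact ⟨by rw [← h, Fin.rev_rev], hP⟩
    · rintro ⟨h, hP⟩
      exact ⟨by rw [h, Fin.rev_rev], hP⟩
  have t1' : ∀ j : Fin n, (G.filter fun x => A x = j) = G.filter fun x => A1 x = j := by
    intro j
    simpa using t1 j (fun _ => True)
  have t0' : ∀ j : Fin n, (Gᶜ.filter fun x => A x = j) = Gᶜ.filter fun x => A0 x = j.rev := by
    intro j
    simpa using t0 j (fun _ => True)
  refine ⟨A, ?_, ?_, ?_, ?_, ?_, ?_⟩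
  · intro i j g
    rw [split A G j, split A G i, t1, t0, t1, t0]
    have l1 := p1 i j (fun x => u i g ≤ u i x) (fun x y hy hxy => hy.trans hxy)
    have l2 := q1 i.rev j.rev (fun x => u i g ≤ u i x) (fun x y hy hxy => by
      simp only [Fin.rev_rev] at hxy
      exact hy.trans hxy)
    simp only [Fin.rev_lt_rev] at l2
    have l3 := hone i j
    omega
  · intro i j
    rw [t1', t1']
    have := p1 i j (fun _ => True) (fun _ _ _ _ => trivial)
    simpa using this
  · intro i j
    rw [t0', t0']
    have := q1 i.rev j.rev (fun _ => True) (fun _ _ _ _ => trivial)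
    simpa [Fin.rev_lt_rev] using this
  · intro h j
    rw [t1']
    exact p2 h j
  · intro h i j
    rw [t1', t1']
    exact p3 h i j
  · intro h j
    rw [t0']
    exact q2 h j.rev

/-- SD-EF1 for `v` -/
theorem general {n : ℕ} (hn : 0 < n) (u : Fin n → M → ℝ) (v : M → ℝ) (hv : ∀ g, 0 ≤ v g)
    (G : Finset M) (hG : ∀ x ∈ G, ∀ y ∉ G, v y ≤ v x)
    (h1 : G.card ≤ n ∨ ∀ x ∈ G, ∀ y ∈ G, v x = v y)
    (h2 : (Gᶜ.card ≤ n ∧ n ∣ G.card) ∨ ∀ x ∉ G, ∀ y ∉ G, v x = v y) :
    ∃ A : M → Fin n, SDEF1 u A ∧ SDEF1 (fun _ => v) A ∧ EF1 (fun _ => v) A := by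
  classical
  obtain ⟨A, hsd, all1, all0, p2, p3, q2⟩ := blocks hn u G
  have sd : SDEF1 (fun _ => v) A := by
    intro i j g
    simp only
    rw [split A G j, split A G i]
    by_cases hy : ∃ y ∈ Gᶜ, v g ≤ v y
    · obtain ⟨y, hy, hgy⟩ := hy
      have hall : ∀ x ∈ G, v g ≤ v x := fun x hx => hgy.trans (hG x hx y (Finset.mem_compl.mp hy))
      have e1 : ∀ j : Fin n, (G.filter fun x => A x = j ∧ v g ≤ v x) = G.filter fun x => A x = j := by
        intro j
        apply Finset.filter_congr
        intro x hx
        simp [hall x hx]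
      rw [e1 i, e1 j]
      rcases h2 with ⟨hc, hd⟩ | hconst
      · have l1 := p3 hd i j
        have l2 : (Gᶜ.filter fun x => A x = j ∧ v g ≤ v x).card ≤ 1 := by
          refine le_trans (Finset.card_le_card ?_) (q2 hc j)
          intro x hx
          obtain ⟨a, b, -⟩ := Finset.mem_filter.mp hx
          exact Finset.mem_filter.mpr ⟨a, b⟩
        omega
      · have e0 : ∀ j : Fin n, (Gᶜ.filter fun x => A x = j ∧ v g ≤ v x) =
            Gᶜ.filter fun x => A x = j := by
          intro j
          apply Finset.filter_congr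
          intro x hx
          have : v g ≤ v x := by
            rw [hconst x (Finset.mem_compl.mp hx) y (Finset.mem_compl.mp hy)]
            exact hgy
          simp [this]
        rw [e0 i, e0 j]
        have l1 := all1 i j
        have l2 := all0 i j
        have l3 := hone i j
        omega
    · push Not at hy
      have e0 : ∀ j : Fin n, (Gᶜ.filter fun x => A x = j ∧ v g ≤ v x) = ∅ := by
        intro j
        rw [Finset.filter_eq_empty_iff]
        rintro x hx ⟨-, h⟩
        exact absurd h (not_le.mpr (hy x hx))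
      rw [e0 i, e0 j]
      simp only [Finset.card_empty, Nat.add_zero]
      rcases h1 with hc | hconst
      · have l1 : (G.filter fun x => A x = j ∧ v g ≤ v x).card ≤ 1 := by
          refine le_trans (Finset.card_le_card ?_) (p2 hc j)
          intro x hx
          obtain ⟨a, b, -⟩ := Finset.mem_filter.mp hx
          exact Finset.mem_filter.mpr ⟨a, b⟩
        omega
      · by_cases hx : ∃ x ∈ G, v g ≤ v x
        · obtain ⟨x, hx, hgx⟩ := hx
          have e1 : ∀ j : Fin n, (G.filter fun x => A x = j ∧ v g ≤ v x) =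
              G.filter fun x => A x = j := by
            intro j
            apply Finset.filter_congr
            intro z hz
            have : v g ≤ v z := by
              rw [hconst z hz x hx]
              exact hgx
            simp [this]
          rw [e1 i, e1 j]
          have l1 := all1 i j
          have l3 : (if j < i then 1 else 0) ≤ (1 : ℕ) := by split_ifs <;> omega
          omega
        · push Not at hx
          have e1 : (G.filter fun x => A x = j ∧ v g ≤ v x) = ∅ := by
            rw [Finset.filter_eq_empty_iff]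
            rintro z hz ⟨-, h⟩
            exact absurd h (not_le.mpr (hx z hz))
          rw [e1]
          simp
  exact ⟨A, hsd, sd, ef1_of_sdef1 v hv sd⟩

/-- a set of `k` goods of highest value -/
theorem top (v : M → ℝ) (k : ℕ) (hk : k ≤ Fintype.card M) :
    ∃ G : Finset M, G.card = k ∧ ∀ x ∈ G, ∀ y ∉ G, v y ≤ v x := by
  classical
  obtain ⟨f, a1, a2, a3, a4⟩ := picks (M := M) (Fintype.card M) (fun _ => v) Finset.univ rfl
  have hrank : ∀ x y : M, f x < f y → v y ≤ v x := by
    intro x y h
    obtain ⟨x', -, hx', hv'⟩ := a4 y (Finset.mem_univ y) (f x) h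
    have : x' = x := a2 x' (Finset.mem_univ _) x (Finset.mem_univ _) hx'
    rw [this] at hv'
    exact hv'
  refine ⟨Finset.univ.filter (fun x => f x < k), ?_, ?_⟩
  · have h : Finset.image f (Finset.univ.filter (fun x => f x < k)) = Finset.range k := by
      ext i
      rw [Finset.mem_image, Finset.mem_range]
      constructor
      · rintro ⟨x, hx, rfl⟩
        exact (Finset.mem_filter.mp hx).2
      · intro hi
        obtain ⟨x, -, hx⟩ := a3 i (by omega)
        exact ⟨x, Finset.mem_filter.mpr ⟨Finset.mem_univ _, by omega⟩, hx⟩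
    have h' := Finset.card_image_of_injOn (s := Finset.univ.filter (fun x => f x < k)) (f := f)
      fun x _ y _ h => a2 x (Finset.mem_univ _) y (Finset.mem_univ _) h
    rw [← h', h, Finset.card_range]
  · intro x hx y hy
    have h1 := (Finset.mem_filter.mp hx).2
    have h2 : ¬ f y < k := fun h => hy (Finset.mem_filter.mpr ⟨Finset.mem_univ _, h⟩)
    exact hrank x y (by omega)

/-- `n > 0` agents with arbitrary subjective utilities `u`, common valuation `v ≥ 0`. There is an allocation which is
SD-EF1 for `u`, SD-EF1 for `v` and EF1 for `v` if there are at most `2 n` goods, or if `v` is constant outside a set of at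
most `n` goods of highest value, or (the general form) if for some set `G` of goods of highest value, `G` has at most `n`
goods or `v` is constant on `G`, and `v` is constant outside `G` or `n` divides `|G|` and there are at most `n` goods
outside `G`. -/
theorem result {n : ℕ} (hn : 0 < n) (u : Fin n → M → ℝ) (v : M → ℝ) (hv : ∀ g, 0 ≤ v g)
    (h : Fintype.card M ≤ 2 * n ∨
      (∃ G : Finset M, G.card ≤ n ∧ (∀ x ∈ G, ∀ y ∉ G, v y ≤ v x) ∧ ∀ x ∉ G, ∀ y ∉ G, v x = v y) ∨
      ∃ G : Finset M, (∀ x ∈ G, ∀ y ∉ G, v y ≤ v x) ∧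
        (G.card ≤ n ∨ ∀ x ∈ G, ∀ y ∈ G, v x = v y) ∧
        ((Gᶜ.card ≤ n ∧ n ∣ G.card) ∨ ∀ x ∉ G, ∀ y ∉ G, v x = v y)) :
    ∃ A : M → Fin n, SDEF1 u A ∧ SDEF1 (fun _ => v) A ∧ EF1 (fun _ => v) A := by
  classical
  rcases h with h | ⟨G, h1, hG, h2⟩ | ⟨G, hG, h1, h2⟩
  · -- few goods
    by_cases hm : Fintype.card M ≤ n
    · refine general hn u v hv Finset.univ (by simp) (Or.inl (by rwa [Finset.card_univ])) (Or.inr (by simp))
    · obtain ⟨G, hGn, hG⟩ := top v n (by omega)
      refine general hn u v hv G hG (Or.inl hGn.le) (Or.inl ⟨?_, by rw [hGn]⟩)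
      have := Finset.card_add_card_compl G
      omega
  · exact general hn u v hv G hG (Or.inl h1) (Or.inr h2)
  · exact general hn u v hv G hG h1 h2

end Pool.Agent.Results.MP_d51325_lc.FewGoods
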