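import Mathlib
import Pool.Agent.Hhelper76.FairDiv
import Pool.Agent.TwoPool.Pools

/-!
# MP_d51325_lc: any number of agents, `n` large goods

If `n` goods of `H` are each worth at least as much, in the common valuation, as every set of at
most `⌈(m - n) / n⌉` of the other goods, then some allocation is SD-EF1 for the subjective
utilities and EF1 for the common valuation.
-/

set_option autoImplicit false

namespace Pool.Agent.Results.MP_d51325_lc.LargeGoods

open Pool.Agent.Hhelper76.FairDiv

/-- For `n ≥ 1` agents with arbitrary additive utilities `u i`, finitely many goods and a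
nonnegative additive common valuation `v`: if `H` is a set of `n` goods such that
`v(R) ≤ v(h)` for every `h ∈ H` and every set `R` of goods outside `H` with
`n (|R| - 1) < m - n` (that is, `|R| ≤ ⌈(m - n) / n⌉`), then some allocation is SD-EF1 with
respect to `u` and EF1 with respect to `v`. -/
theorem result {M : Type*} [Fintype M] [DecidableEq M] {n : ℕ} (hn : 0 < n)
    (u : Fin n → M → ℝ) (v : M → ℝ) (hv : ∀ g, 0 ≤ v g) (H : Finset M) (hH : H.card = n)
    (hR : ∀ R : Finset M, Disjoint R H → n * (R.card - 1) < Fintype.card M - n →
      ∀ h ∈ H, value v R ≤ v h) :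
    ∃ A : M → Fin n, SDEF1 u A ∧ EF1 (fun _ => v) A :=
  Pool.Agent.TwoPool.large hn u v hv H hH hR

end Pool.Agent.Results.MP_d51325_lc.LargeGoods
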