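import Mathlib
import Pool.Agent.Hhelper76.FairDiv
import Pool.Agent.Hhelper76.SDEFTwo

/-! Two agents: an allocation that is SD-EF1 for the subjective utilities and EF1 for the
common valuation always exists. -/

namespace Pool.Agent.Results.MP_d51325_lc.TwoAgents

open Pool.Agent.Hhelper76.FairDiv Pool.Agent.Hhelper76.SDEF

variable {M : Type*} [Fintype M] [DecidableEq M]

/-- For two agents, arbitrarily many goods, arbitrary additive utilities `u 0, u 1` and an
arbitrary nonnegative additive valuation `v`, there is an allocation that is SD-EF1 with respect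
to `u` and EF1 with respect to `v`. -/
theorem result (u : Fin 2 → M → ℝ) (v : M → ℝ) (hv : ∀ g, 0 ≤ v g) :
    ∃ A : M → Fin 2, SDEF1 u A ∧ EF1 (fun _ => v) A := by
  classical
  obtain ⟨e0, he0⟩ := exists_ranking (u 0)
  obtain ⟨e1, he1⟩ := exists_ranking (u 1)
  obtain ⟨s, hs, ha, hb, hc⟩ := any_case e0 e1 v hv
  let A : M → Fin 2 := fun x => if s x = 1 then 0 else 1
  have hb0 : ∀ x, x ∈ bundle A 0 ↔ s x = 1 := by
    intro x
    simp only [bundle, Finset.mem_filter, Finset.mem_univ, true_and, A]
    split_ifs with h <;> simp [h]
  have hb1 : ∀ x, x ∈ bundle A 1 ↔ s x = -1 := by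
    intro x
    simp only [bundle, Finset.mem_filter, Finset.mem_univ, true_and, A]
    rcases hs x with h | h <;> simp [h]
  -- counting lemma
  have hcount : ∀ (p : M → Prop) [DecidablePred p],
      ∑ x ∈ Finset.univ.filter p, s x =
        (((bundle A 0).filter p).card : ℤ) - (((bundle A 1).filter p).card : ℤ) := by
    intro p _
    have hsplit : Finset.univ.filter p = (bundle A 0).filter p ∪ (bundle A 1).filter p := by
      ext x
      simp only [Finset.mem_filter, Finset.mem_univ, true_and, Finset.mem_union, hb0, hb1]
      rcases hs x with h | h <;> simp [h]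
    have hdisj : Disjoint ((bundle A 0).filter p) ((bundle A 1).filter p) := by
      rw [Finset.disjoint_left]
      intro x hx hx'
      rw [Finset.mem_filter, hb0] at hx
      rw [Finset.mem_filter, hb1] at hx'
      rw [hx.1] at hx'; norm_num at hx'
    rw [hsplit, Finset.sum_union hdisj]
    have h1 : ∑ x ∈ (bundle A 0).filter p, s x = ∑ x ∈ (bundle A 0).filter p, (1 : ℤ) := by
      apply Finset.sum_congr rfl
      intro x hx; rw [Finset.mem_filter, hb0] at hx; exact hx.1
    have h2 : ∑ x ∈ (bundle A 1).filter p, s x = ∑ x ∈ (bundle A 1).filter p, (-1 : ℤ) := by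
      apply Finset.sum_congr rfl
      intro x hx; rw [Finset.mem_filter, hb1] at hx; exact hx.1
    rw [h1, h2]
    simp
    ring
  refine ⟨A, ?_, ?_⟩
  · -- SD-EF1
    intro i j g
    have h00 : ((bundle A 1).filter (fun x => u 0 g ≤ u 0 x)).card ≤
        ((bundle A 0).filter (fun x => u 0 g ≤ u 0 x)).card + 1 := by
      obtain ⟨t, ht, hiff⟩ := he0 g
      have h := ha t ht
      have heq : Finset.univ.filter (fun x => (e0.symm x).val < t) =
          Finset.univ.filter (fun x => u 0 g ≤ u 0 x) := by
        ext x; simp only [Finset.mem_filter, Finset.mem_univ, true_and]; exact (hiff x).symm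
      rw [heq, hcount] at h
      omega
    have h11 : ((bundle A 0).filter (fun x => u 1 g ≤ u 1 x)).card ≤
        ((bundle A 1).filter (fun x => u 1 g ≤ u 1 x)).card + 1 := by
      obtain ⟨t, ht, hiff⟩ := he1 g
      have h := hb t ht
      have heq : Finset.univ.filter (fun x => (e1.symm x).val < t) =
          Finset.univ.filter (fun x => u 1 g ≤ u 1 x) := by
        ext x; simp only [Finset.mem_filter, Finset.mem_univ, true_and]; exact (hiff x).symm
      rw [heq, hcount] at h
      omega
    have hi : i = 0 ∨ i = 1 := by omega
    have hj : j = 0 ∨ j = 1 := by omega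
    rcases hi with rfl | rfl <;> rcases hj with rfl | rfl
    · exact Nat.le_succ _
    · exact h00
    · exact h11
    · exact Nat.le_succ _
  · -- EF1
    have hval : ∀ i, ∀ g ∈ bundle A i,
        value v ((bundle A i).erase g) = value v (bundle A i) - v g := by
      intro i g hg
      unfold value
      rw [← Finset.sum_erase_add _ _ hg]; ring
    have hD : ∑ x, v x * (s x : ℝ) = value v (bundle A 0) - value v (bundle A 1) := by
      unfold value
      have hsplit : (Finset.univ : Finset M) = bundle A 0 ∪ bundle A 1 := by
        ext x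
        simp only [Finset.mem_univ, Finset.mem_union, hb0, hb1, true_iff]
        exact hs x
      have hdisj : Disjoint (bundle A 0) (bundle A 1) := by
        rw [Finset.disjoint_left]
        intro x hx hx'
        rw [hb0] at hx
        rw [hb1] at hx'
        rw [hx] at hx'; norm_num at hx'
      rw [hsplit, Finset.sum_union hdisj]
      have h1 : ∑ x ∈ bundle A 0, v x * (s x : ℝ) = ∑ x ∈ bundle A 0, v x := by
        apply Finset.sum_congr rfl
        intro x hx; rw [hb0] at hx; rw [hx]; simp
      have h2 : ∑ x ∈ bundle A 1, v x * (s x : ℝ) = - ∑ x ∈ bundle A 1, v x := by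
        rw [← Finset.sum_neg_distrib]
        apply Finset.sum_congr rfl
        intro x hx; rw [hb1] at hx; rw [hx]; simp
      rw [h1, h2]; ring
    -- if the other bundle is not richer, any good can be removed
    have heasy : ∀ i j, value v (bundle A j) ≤ value v (bundle A i) →
        bundle A j = ∅ ∨ ∃ g ∈ bundle A j,
          value v ((bundle A j).erase g) ≤ value v (bundle A i) := by
      intro i j h
      rcases Finset.eq_empty_or_nonempty (bundle A j) with h0 | ⟨g, hg⟩
      · exact Or.inl h0
      · right
        refine ⟨g, hg, ?_⟩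
        rw [hval j g hg]
        linarith [hv g]
    intro i j
    show bundle A j = ∅ ∨ ∃ g ∈ bundle A j,
          value v ((bundle A j).erase g) ≤ value v (bundle A i)
    have hi : i = 0 ∨ i = 1 := by omega
    have hj : j = 0 ∨ j = 1 := by omega
    have h01 : bundle A 1 = ∅ ∨ ∃ g ∈ bundle A 1,
        value v ((bundle A 1).erase g) ≤ value v (bundle A 0) := by
      rcases hc with hc | ⟨g, hg, h0, hle⟩ | ⟨g, hg, h0, hle⟩
      · apply heasy; rw [hD] at hc; linarith
      · apply heasy; rw [hD] at h0; linarith
      · right
        have hg' := (hb1 g).2 hg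
        refine ⟨g, hg', ?_⟩
        rw [hval 1 g hg']
        rw [hD] at hle; linarith
    have h10 : bundle A 0 = ∅ ∨ ∃ g ∈ bundle A 0,
        value v ((bundle A 0).erase g) ≤ value v (bundle A 1) := by
      rcases hc with hc | ⟨g, hg, h0, hle⟩ | ⟨g, hg, h0, hle⟩
      · apply heasy; rw [hD] at hc; linarith
      · right
        have hg' := (hb0 g).2 hg
        refine ⟨g, hg', ?_⟩
        rw [hval 0 g hg']
        rw [hD] at hle; linarith
      · apply heasy; rw [hD] at h0; linarith
    rcases hi with rfl | rfl <;> rcases hj with rfl | rfl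
    · exact heasy 0 0 le_rfl
    · exact h01
    · exact h10
    · exact heasy 1 1 le_rfl

end Pool.Agent.Results.MP_d51325_lc.TwoAgents
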