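import Pool.Agent.TwC.Main

/-!
# Two classes of goods inside which nobody disagrees with the common valuation

Proof.  Let the agents pick goods of the first class one after the other in the order `1, ..., n`,
again and again, and then goods of the second class in the order `n, ..., 1`.  Let `i` and `j` be
two agents.  In one of the two classes `i` picks before `j`, and the number of goods of `j` in an
upper set of `u i` is at most that of `i`; in the other class it is larger by at most one.  Inside
a class the upper sets of `v` are upper sets of every `u i`.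
-/

set_option autoImplicit false

namespace Pool.Agent.Results.MP_d51325_lc.TwoClasses

open Pool.Agent.Hhelper76.FairDiv Pool.Agent.TwC

/-- Let the goods be divided into the classes `S` and its complement such that inside each class
`u i g ≤ u i h` implies `v g ≤ v h` for every agent `i`.  Then some allocation is SD-EF1 with
respect to `u`, SD-EF1 with respect to `v` and EF1 with respect to `v`. -/
theorem result {M : Type*} [Fintype M] [DecidableEq M] {n : ℕ} (hn : 0 < n)
    (u : Fin n → M → ℝ) (v : M → ℝ) (hv : ∀ g, 0 ≤ v g) (S : Finset M)
    (hS : ∀ i g h, (g ∈ S ↔ h ∈ S) → u i g ≤ u i h → v g ≤ v h) :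
    ∃ A : M → Fin n, SDEF1 u A ∧ SDEF1 (fun _ => v) A ∧ EF1 (fun _ => v) A := by
  obtain ⟨A, hA⟩ := two u hn S
  have hc : ∀ (i j : Fin n) (t : ℝ), ((bundle A j).filter (fun x => t ≤ v x)).card ≤
      ((bundle A i).filter (fun x => t ≤ v x)).card + 1 := by
    intro i j t
    refine hA i j _ ?_ ?_
    · intro g hg h hh hT hgh
      exact hT.trans (hS i g h (by simp [hg, hh]) hgh)
    · intro g hg h hh hT hgh
      rw [Finset.mem_compl] at hg hh
      exact hT.trans (hS i g h (by simp [hg, hh]) hgh)
  refine ⟨A, ?_, ?_, ?_⟩
  · intro i j g
    refine hA i j _ ?_ ?_ <;> exact fun a _ b _ hT hab => hT.trans hab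
  · intro i j g
    exact hc i j (v g)
  · intro i j
    rcases (bundle A j).eq_empty_or_nonempty with h0 | h0
    · exact Or.inl h0
    right
    obtain ⟨g, hg, hmax⟩ := (bundle A j).exists_max_image v h0
    refine ⟨g, hg, layer v hv _ _ _ rfl ?_⟩
    intro t
    by_cases ht : t ≤ v g
    · have e1 : ((bundle A j).erase g).filter (fun x => t ≤ v x) =
          ((bundle A j).filter (fun x => t ≤ v x)).erase g := by
        ext x; simp only [Finset.mem_filter, Finset.mem_erase]; tauto
      rw [e1, Finset.card_erase_of_mem (Finset.mem_filter.2 ⟨hg, ht⟩)]
      have := hc i j t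
      omega
    · have e1 : ((bundle A j).erase g).filter (fun x => t ≤ v x) = ∅ := by
        rw [Finset.filter_eq_empty_iff]
        intro x hx hx'
        exact ht (hx'.trans (hmax x (Finset.mem_of_mem_erase hx)))
      rw [e1, Finset.card_empty]
      exact Nat.zero_le _

end Pool.Agent.Results.MP_d51325_lc.TwoClasses
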